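import Pool.Agent.Work.MP_cd2c38_gt.Examples

/-!
# A taut spherically substantial embedding of `RP3` into `S^6`

The embedding sends the line of the unit quaternion with rotation matrix `g` to
`(g13, g21, g22, √2 g23, g31, g32, √2 g33) / √3`. By the row and column relations of `g` this is a
unit vector; by the cofactor relations the seven entries determine `g`; and every distance function
is a constant plus a linear function of `g`, that is, the Rayleigh quotient of a symmetric operator
on `ℝ⁴`, whose critical points are the eigenlines.
-/

noncomputable section

open Pool.Agent.Work.MP_cd2c38_gt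

namespace Pool.Agent.Results.MP_cd2c38_gt.Codim3

/-- `RP3` admits a taut smooth embedding with image in the unit sphere of `ℝ^7` and in no affine
hyperplane. -/
theorem result :
    ∃ f : RP3 → EuclideanSpace ℝ (Fin 7),
      (∀ x, ‖f x‖ = 1) ∧ IsSmoothEmb E3 f ∧ IsSubstantial f ∧ IsTaut E3 4 f :=
  ⟨data7.emb, data7.norm_emb, data7.isSmoothEmb, data7.isSubstantial, data7.isTaut⟩

end Pool.Agent.Results.MP_cd2c38_gt.Codim3
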