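import Pool.Agent.Work.MP_cd2c38_gt.Examples

/-!
# A taut spherically substantial embedding of `RP3` into `S^7`

The embedding sends the line of the unit quaternion with rotation matrix `g` to
`(g12, g13, g21, g31, √2 g22, √2 g23, √2 g32, √2 g33) / 2`. By the row and column relations of `g`
this is a unit vector; by the cofactor relation for `g11` the eight entries determine `g`; and
every distance function is a constant plus a linear function of `g`, that is, the Rayleigh quotient
of a symmetric operator on `ℝ⁴`, whose critical points are the eigenlines.
-/

noncomputable section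

open Pool.Agent.Work.MP_cd2c38_gt

namespace Pool.Agent.Results.MP_cd2c38_gt.Codim4

/-- `RP3` admits a taut smooth embedding with image in the unit sphere of `ℝ^8` and in no affine
hyperplane. -/
theorem result :
    ∃ f : RP3 → EuclideanSpace ℝ (Fin 8),
      (∀ x, ‖f x‖ = 1) ∧ IsSmoothEmb E3 f ∧ IsSubstantial f ∧ IsTaut E3 4 f :=
  ⟨data8.emb, data8.norm_emb, data8.isSmoothEmb, data8.isSubstantial, data8.isTaut⟩

end Pool.Agent.Results.MP_cd2c38_gt.Codim4
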